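import Pool.Agent.Helper213.SklProof

set_option autoImplicit false

namespace Pool.Agent.Results.MP_b32758_al.Main

open Pool.Agent.Helper213 Pool.Agent.Helper213.SklDefs

universe u

/-- For all admissible parameters: Sklyanin's two quadratic elements are linearly independent and
span the degree-2 part of the centre of `S`; the automorphisms `g_1, g_2` exist; and for every
choice of `Ω₁, Ω₂` spanning the degree-2 part of the centre and every `(c₁, c₂) ≠ (0, 0)`, the
algebra `R_Ω` is not a domain. -/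
theorem result (k : Type u) [Field k] [IsAlgClosed k] [CharZero k] (α β γ : k)
    (hrel : α + β + γ + α * β * γ = 0)
    (hα : α ≠ 0 ∧ α ≠ 1 ∧ α ≠ -1) (hβ : β ≠ 0 ∧ β ≠ 1 ∧ β ≠ -1)
    (hγ : γ ≠ 0 ∧ γ ≠ 1 ∧ γ ≠ -1) :
    SpansCentreTwo k (gen α β γ) (Omega1 (gen α β γ)) (Omega2 α β γ (gen α β γ)) ∧
    Indep k (Omega1 (gen α β γ)) (Omega2 α β γ (gen α β γ)) ∧
    HasAct k (gen α β γ) ∧
    NeverDomain k (gen α β γ) := by
  have hS := SklProof.model α β γ
  refine ⟨?_, ?_, SklProof.exists_act hS, ?_⟩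
  · obtain ⟨g₁, g₂, hg⟩ := SklProof.exists_act hS
    exact (SklProof.main hS hg hrel hα hβ hγ).1
  · obtain ⟨g₁, g₂, hg⟩ := SklProof.exists_act hS
    exact (SklProof.main hS hg hrel hα hβ hγ).2.1
  · intro g₁ g₂ hg
    exact (SklProof.main hS hg hrel hα hβ hγ).2.2

end Pool.Agent.Results.MP_b32758_al.Main
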